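import Mathlib
import Pool.Agent.H182R3.VR.Stmts

/-!
# Task Inf of the project H182-VR (MP_1755e3_an)
-/

set_option autoImplicit false
open Set Filter Topology

namespace Pool.Agent.H182R3.VR
namespace TInf

theorem lim_div {l : Filter ℝ} {u : ℝ → ℝ} (hu : Tendsto u l atTop) {α : ℝ} (hl : l ≤ 𝓝 α)
    (a b e s : ℝ) : Tendsto (fun x => (a * x + b * (s * u x) + e) / u x) l (𝓝 (s * b)) := by
  have h1 : Tendsto (fun x => (u x)⁻¹) l (𝓝 0) := tendsto_inv_atTop_zero.comp hu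
  have hc : Continuous (fun x : ℝ => a * x + e) := by fun_prop
  have h2 : Tendsto (fun x : ℝ => a * x + e) l (𝓝 (a * α + e)) := (hc.tendsto α).mono_left hl
  have h3 : Tendsto (fun x => (a * x + e) * (u x)⁻¹ + s * b) l
      (𝓝 ((a * α + e) * 0 + s * b)) := (h2.mul h1).add tendsto_const_nhds
  rw [mul_zero, zero_add] at h3
  refine h3.congr' ?_
  filter_upwards [hu.eventually_gt_atTop 0] with x hx
  field_simp
  ring

theorem dirlim {f : ℝ → ℝ} {g : Aff} {r : ℝ} (hr : 0 < r) (hg : g ∈ Stab (Gr f)) (hT : IsT r g)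
    {α s : ℝ} (hs : s * s = 1) (hf : Tendsto (fun x => s * f x) (𝓝[>] α) atTop) :
    Tendsto (fun x' => (x' / √(x' ^ 2 + (f x') ^ 2), f x' / √(x' ^ 2 + (f x') ^ 2)))
      (Filter.map (tt g f) (𝓝[>] α)) (𝓝 (s * (g.b / r), s * (g.d / r))) := by
  rw [tendsto_map'_iff]
  have hfx : ∀ x, f (tt g f x) = g.c * x + g.d * f x + g.k := by
    intro x
    have h1 : act g (x, f x) ∈ Gr f := (hg.2 (x, f x)).2 rfl
    have h2 : (act g (x, f x)).2 = f (act g (x, f x)).1 := h1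
    simpa [act, tt] using h2.symm
  have hff : ∀ x, s * (s * f x) = f x := fun x => by rw [← mul_assoc, hs, one_mul]
  have hA := lim_div hf (nhdsWithin_le_nhds : 𝓝[>] α ≤ 𝓝 α) g.a g.b g.e s
  have hB := lim_div hf (nhdsWithin_le_nhds : 𝓝[>] α ≤ 𝓝 α) g.c g.d g.k s
  simp only [hff] at hA hB
  have hN : Tendsto (fun x => √(((g.a * x + g.b * f x + g.e) / (s * f x)) ^ 2 +
      ((g.c * x + g.d * f x + g.k) / (s * f x)) ^ 2)) (𝓝[>] α) (𝓝 r) := by
    have h1 := ((hA.pow 2).add (hB.pow 2)).sqrt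
    have h2 : √((s * g.b) ^ 2 + (s * g.d) ^ 2) = r := by
      have h3 : (s * g.b) ^ 2 + (s * g.d) ^ 2 = r ^ 2 := by
        have := hT.2.1
        calc (s * g.b) ^ 2 + (s * g.d) ^ 2 = (s * s) * (g.b ^ 2 + g.d ^ 2) := by ring
          _ = r ^ 2 := by rw [hs, this, one_mul]
      rw [h3, Real.sqrt_sq hr.le]
    rwa [h2] at h1
  have hq : ∀ᶠ x in 𝓝[>] α, √((tt g f x) ^ 2 + (f (tt g f x)) ^ 2) =
      (s * f x) * √(((g.a * x + g.b * f x + g.e) / (s * f x)) ^ 2 +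
      ((g.c * x + g.d * f x + g.k) / (s * f x)) ^ 2) := by
    filter_upwards [hf.eventually_gt_atTop 0] with x hx
    have h1 : (tt g f x) ^ 2 + (f (tt g f x)) ^ 2 = (s * f x) ^ 2 *
        (((g.a * x + g.b * f x + g.e) / (s * f x)) ^ 2 +
        ((g.c * x + g.d * f x + g.k) / (s * f x)) ^ 2) := by
      rw [hfx]
      simp only [tt]
      rw [div_pow, div_pow, mul_add, mul_div_cancel₀ _ (pow_pos hx 2).ne',
        mul_div_cancel₀ _ (pow_pos hx 2).ne']
    rw [h1, Real.sqrt_mul (sq_nonneg _), Real.sqrt_sq hx.le]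
  refine Tendsto.prodMk_nhds ?_ ?_
  · have h1 := hA.div hN hr.ne'
    rw [mul_div_assoc] at h1
    refine h1.congr' ?_
    filter_upwards [hq, hf.eventually_gt_atTop 0] with x hx hx0
    show _ / _ = (tt g f x) / √((tt g f x) ^ 2 + (f (tt g f x)) ^ 2)
    rw [hx, div_div, tt]
  · have h1 := hB.div hN hr.ne'
    rw [mul_div_assoc] at h1
    refine h1.congr' ?_
    filter_upwards [hq, hf.eventually_gt_atTop 0] with x hx hx0
    show _ / _ = f (tt g f x) / √((tt g f x) ^ 2 + (f (tt g f x)) ^ 2)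
    rw [hx, div_div, hfx]

end TInf

/-- TASK Inf. -/
theorem taskInf : TaskInf := by
  intro f C G α E hF hE hf
  obtain ⟨s, hs, hs'⟩ : ∃ s : ℝ, s * s = 1 ∧ Tendsto (fun x => s * f x) (𝓝[>] α) atTop := by
    rcases hf with hf | hf
    · exact ⟨1, by norm_num, by simpa using hf⟩
    · refine ⟨-1, by norm_num, ?_⟩
      simpa using hf
  have hs0 : s ≠ 0 := by
    rintro rfl
    norm_num at hs
  have hne : C.Nonempty := by
    by_contra h
    rw [not_nonempty_iff_eq_empty] at h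
    apply hF.unc
    rw [h]
    exact countable_empty
  obtain ⟨r₀, hr₀⟩ := hne
  refine ⟨{((G r₀).b / r₀, (G r₀).d / r₀)}, finite_singleton _, fun r hr => Or.inr ?_⟩
  have h1 := TInf.dirlim (hF.pos r hr) (hF.stab r hr) (hF.isT r hr) hs hs'
  have h2 := TInf.dirlim (hF.pos r₀ hr₀) (hF.stab r₀ hr₀) (hF.isT r₀ hr₀) hs hs'
  rw [hE r hr] at h1
  rw [hE r₀ hr₀] at h2
  have : E.NeBot := by
    rw [← hE r hr]
    infer_instance
  have h3 := tendsto_nhds_unique h1 h2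
  have h4 := (Prod.ext_iff.1 h3).1
  have h5 := (Prod.ext_iff.1 h3).2
  simp only at h4 h5
  rw [mem_singleton_iff, Prod.ext_iff]
  exact ⟨mul_left_cancel₀ hs0 h4, mul_left_cancel₀ hs0 h5⟩

end Pool.Agent.H182R3.VR
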